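import Pool.Agent.Helper62.NT.Goals

/-!
# Packet NT-HULL (MP_8ff381_an): the real tree of a tree-like space
-/

set_option autoImplicit false

open Pool.Agent.Helper84.TR

namespace Pool.Agent.Helper70.NT.HULL

open Pool.Agent.Helper62.NT

variable {M : Type} [MetricSpace M]

/-- The points of the paths from the root to the points of `M`. -/
abbrev Pre (o : M) : Type := {c : M × ℝ // 0 ≤ c.2 ∧ c.2 ≤ dist c.1 o}

variable {o : M}

/-- The product. -/
noncomputable def G (c d : Pre o) : ℝ := min (min c.1.2 d.1.2) (gp o c.1.1 d.1.1)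

/-- The distance. -/
noncomputable def D (c d : Pre o) : ℝ := c.1.2 + d.1.2 - 2 * G c d

theorem G_le_left (c d : Pre o) : G c d ≤ c.1.2 := (min_le_left _ _).trans (min_le_left _ _)

theorem G_le_right (c d : Pre o) : G c d ≤ d.1.2 := (min_le_left _ _).trans (min_le_right _ _)

theorem G_nonneg (c d : Pre o) : 0 ≤ G c d := le_min (le_min c.2.1 d.2.1) (gp_nonneg _ _ _)

theorem G_comm (c d : Pre o) : G c d = G d c := by
  unfold G
  rw [min_comm c.1.2, gp_comm]

theorem G_tree (hT : TL M) (c d e : Pre o) : min (G c d) (G d e) ≤ G c e := by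
  refine le_min (le_min ?_ ?_) ?_
  · exact (min_le_left _ _).trans (G_le_left c d)
  · exact (min_le_right _ _).trans (G_le_right d e)
  · refine le_trans (min_le_min ?_ ?_) (gp_tree hT o c.1.1 e.1.1 d.1.1)
    · exact min_le_right _ _
    · exact min_le_right _ _

theorem D_self (c : Pre o) : D c c = 0 := by
  unfold D G
  rw [min_self, gp_self, min_eq_left c.2.2]
  ring

theorem D_comm (c d : Pre o) : D c d = D d c := by
  unfold D
  rw [G_comm]
  ring

theorem D_nonneg (c d : Pre o) : 0 ≤ D c d := by
  unfold D
  have h1 := G_le_left c d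
  have h2 := G_le_right c d
  linarith

theorem D_triangle (hT : TL M) (c d e : Pre o) : D c e ≤ D c d + D d e := by
  unfold D
  have h1 := G_tree hT c d e
  have h2 : max (G c d) (G d e) ≤ d.1.2 := max_le (G_le_right c d) (G_le_left d e)
  have h3 := min_add_max (G c d) (G d e)
  linarith

theorem dep_of_D {c d : Pre o} (h : D c d = 0) : c.1.2 = d.1.2 := by
  unfold D at h
  have h1 := G_le_left c d
  have h2 := G_le_right c d
  linarith

theorem gp_of_D {c d : Pre o} (h : D c d = 0) : c.1.2 ≤ gp o c.1.1 d.1.1 := by
  have h3 := dep_of_D h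
  unfold D at h
  have h1 : G c d ≤ gp o c.1.1 d.1.1 := min_le_right _ _
  linarith

theorem D_congr (hT : TL M) {c c' : Pre o} (h : D c c' = 0) (d : Pre o) : D c d = D c' d := by
  have h1 := D_triangle hT c c' d
  have h2 := D_triangle hT c' c d
  rw [D_comm c' c] at h2
  linarith

theorem G_congr (hT : TL M) {c c' : Pre o} (h : D c c' = 0) (d : Pre o) : G c d = G c' d := by
  have h1 := D_congr hT h d
  have h2 := dep_of_D h
  unfold D at h1
  linarith

/-- The equivalence relation. -/
def sd (hT : TL M) (o : M) : Setoid (Pre o) where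
  r c d := D c d = 0
  iseqv := {
    refl := D_self
    symm := fun {c d} h => by rw [D_comm]; exact h
    trans := fun {c d e} h1 h2 => by rw [D_congr hT h1]; exact h2 }

/-- The tree. -/
def HH (hT : TL M) (o : M) : Type := Quotient (sd hT o)

variable {hT : TL M}

/-- The class. -/
def mk (hT : TL M) (c : Pre o) : HH hT o := Quotient.mk (sd hT o) c

/-- A representative. -/
noncomputable def out (q : HH hT o) : Pre o := Quotient.out q

theorem mk_out (q : HH hT o) : mk hT (out q) = q := Quotient.out_eq q

theorem mk_eq {c d : Pre o} : mk hT c = mk hT d ↔ D c d = 0 :=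
  ⟨fun h => Quotient.exact h, fun h => Quotient.sound h⟩

theorem D_out (c : Pre o) : D (out (mk hT c)) c = 0 := mk_eq.1 (mk_out (mk hT c))

noncomputable instance inst : MetricSpace (HH hT o) where
  dist q q' := D (out q) (out q')
  dist_self q := D_self _
  dist_comm q q' := D_comm _ _
  dist_triangle q q' q'' := D_triangle hT _ _ _
  eq_of_dist_eq_zero := fun {q q'} h => by
    rw [← mk_out q, ← mk_out q']
    exact mk_eq.2 h

theorem dist_def (q q' : HH hT o) : dist q q' = D (out q) (out q') := rfl

theorem dist_mk (c d : Pre o) : dist (mk hT c) (mk hT d) = D c d := by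
  rw [dist_def, D_congr hT (D_out c), D_comm, D_congr hT (D_out d), D_comm]

/-- The restriction. -/
noncomputable def rs (q : HH hT o) (t : ℝ) : HH hT o :=
  open Classical in
  if h : 0 ≤ t ∧ t ≤ (out q).1.2 then mk hT ⟨((out q).1.1, t), h.1, h.2.trans (out q).2.2⟩ else q

theorem rs_eq (q : HH hT o) (t : ℝ) (h0 : 0 ≤ t) (h : t ≤ (out q).1.2) :
    rs q t = mk hT ⟨((out q).1.1, t), h0, h.trans (out q).2.2⟩ := by
  unfold rs
  rw [dif_pos ⟨h0, h⟩]

theorem D_same (x y : M) (t : ℝ) (h1 : 0 ≤ t ∧ t ≤ dist x o) (h2 : 0 ≤ t ∧ t ≤ dist y o) :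
    D (⟨(x, t), h1⟩ : Pre o) ⟨(y, t), h2⟩ = 0 ↔ t ≤ gp o x y := by
  unfold D G
  simp only [min_self]
  constructor
  · intro h
    have : min t (gp o x y) = t := by linarith
    exact min_eq_left_iff.1 this
  · intro h
    rw [min_eq_left h]
    ring

theorem t : S_HULL := by
  intro M _ hT o
  refine ⟨HH hT o, inst, ?_, fun x => mk hT ⟨(x, dist x o), dist_nonneg, le_rfl⟩, ?_, ?_⟩
  · exact {
      dep := fun q => (out q).1.2
      res := rs
      gp := fun q q' => G (out q) (out q')
      gp_nonneg := fun q q' => G_nonneg _ _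
      gp_le := fun q q' => G_le_left _ _
      gp_comm := fun q q' => G_comm _ _
      dist_eq := fun q q' => rfl
      dep_res := by
        intro q t h0 h
        rw [rs_eq q t h0 h]
        exact dep_of_D (D_out _)
      res_dep := by
        intro q
        rw [rs_eq q _ (out q).2.1 le_rfl]
        exact mk_out q
      res_eq := by
        intro q q' t h0 h h'
        rw [rs_eq q t h0 h, rs_eq q' t h0 h', mk_eq, D_same]
        constructor
        · intro h1
          exact le_min (le_min h h') h1
        · intro h1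
          exact h1.trans (min_le_right _ _)
      res_res := by
        intro q s t h0 hst h
        rw [rs_eq q t (h0.trans hst) h, rs_eq q s h0 (hst.trans h)]
        set c : Pre o := ⟨((out q).1.1, t), h0.trans hst, h.trans (out q).2.2⟩ with hc
        have h1 := D_out (hT := hT) c
        have h2 : (out (mk hT c)).1.2 = t := dep_of_D h1
        rw [rs_eq (mk hT c) s h0 (by rw [h2]; exact hst), mk_eq, D_same]
        have h3 := gp_of_D h1
        rw [h2] at h3
        exact hst.trans h3 }
  · intro x y
    refine (dist_mk _ _).trans ?_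
    unfold D G
    simp only
    rw [min_eq_right (le_min (gp_le_left o x y) (gp_le_right o x y))]
    unfold gp
    ring
  · intro x
    exact dep_of_D (D_out (hT := hT) ⟨(x, dist x o), dist_nonneg, le_rfl⟩)

end Pool.Agent.Helper70.NT.HULL
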